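import Pool.Agent.Helper99.Andrica.Dilation

set_option autoImplicit false

/-!
# Affine maps between square roots of primes
-/

open Filter Topology MeasureTheory

namespace Pool.Agent.Results.MP_3998cf_nt.AffineMaps

open Pool.Agent.Helper99.Andrica

/-- Every large prime `p` has a prime `q` with `√q = l √p + t + o(1)`. -/
def PrimeMap (l t : ℝ) : Prop :=
  ∀ ε : ℝ, 0 < ε → ∃ P : ℕ, ∀ p : ℕ, p.Prime → P ≤ p →
    ∃ q : ℕ, q.Prime ∧ |√(q : ℝ) - (l * √(p : ℝ) + t)| < ε

/-- Every large integer `N` has a prime `q` with `√q = N + θ + o(1)`. -/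
def NearIntegers (θ : ℝ) : Prop :=
  ∀ ε : ℝ, 0 < ε → ∃ N₀ : ℕ, ∀ N : ℕ, N₀ ≤ N →
    ∃ q : ℕ, q.Prime ∧ |√(q : ℝ) - (N + θ)| < ε

/-- `d n = √p_{n+2} - √p_{n+1}` in the numbering `p_1 = 2` of the problem file. -/
noncomputable def d (n : ℕ) : ℝ :=
  √(Nat.nth Nat.Prime (n + 1) : ℝ) - √(Nat.nth Nat.Prime n : ℝ)

/-- The sequence of square roots of primes. -/
noncomputable def sq (n : ℕ) : ℝ := √(Nat.nth Nat.Prime n : ℝ)

theorem sq_strictMono : StrictMono sq := fun a b h => by
  have h1 : Nat.nth Nat.Prime a < Nat.nth Nat.Prime b :=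
    Nat.nth_strictMono Nat.infinite_setOfPred_prime h
  exact Real.sqrt_lt_sqrt (by positivity) (by exact_mod_cast h1)

theorem sq_tendsto : Tendsto sq atTop atTop := by
  have h1 : Tendsto (fun n => (Nat.nth Nat.Prime n : ℝ)) atTop atTop :=
    tendsto_natCast_atTop_atTop.comp (Nat.nth_strictMono Nat.infinite_setOfPred_prime).tendsto_atTop
  exact Real.tendsto_sqrt_atTop.comp h1

theorem exists_sq {q : ℕ} (hq : q.Prime) : ∃ m, Nat.nth Nat.Prime m = q := by
  have := Nat.range_nth_of_infinite Nat.infinite_setOfPred_prime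
  have h : q ∈ Set.range (Nat.nth Nat.Prime) := by rw [this]; exact hq
  exact h

theorem primeMap_iff (l t : ℝ) : PrimeMap l t ↔ Aff sq l t := by
  constructor
  · intro h ε hε
    obtain ⟨P, hP⟩ := h ε hε
    have h1 : ∀ᶠ n in atTop, P ≤ Nat.nth Nat.Prime n :=
      (Nat.nth_strictMono Nat.infinite_setOfPred_prime).tendsto_atTop.eventually_ge_atTop P
    filter_upwards [h1] with n hn
    obtain ⟨q, hq, hq'⟩ := hP _ (Nat.prime_nth_prime n) hn
    obtain ⟨m, rfl⟩ := exists_sq hq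
    exact ⟨m, hq'⟩
  · intro h ε hε
    obtain ⟨N, hN⟩ := eventually_atTop.mp (h ε hε)
    refine ⟨Nat.nth Nat.Prime N, fun p hp hpN => ?_⟩
    obtain ⟨n, rfl⟩ := exists_sq hp
    have hn : N ≤ n :=
      (Nat.nth_strictMono Nat.infinite_setOfPred_prime).le_iff_le.mp hpN
    obtain ⟨m, hm⟩ := hN n hn
    exact ⟨_, Nat.prime_nth_prime m, hm⟩

theorem sq_succ_le (n : ℕ) : sq (n + 1) ≤ 2 * sq n := by
  have hp := Nat.prime_nth_prime n
  obtain ⟨q, hq, h1, h2⟩ := Nat.exists_prime_lt_and_le_two_mul _ hp.ne_zero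
  obtain ⟨m, rfl⟩ := exists_sq hq
  have h3 : n < m := (Nat.nth_strictMono Nat.infinite_setOfPred_prime).lt_iff_lt.mp h1
  have h4 : Nat.nth Nat.Prime (n + 1) ≤ Nat.nth Nat.Prime m :=
    (Nat.nth_strictMono Nat.infinite_setOfPred_prime).monotone h3
  have h5 : (Nat.nth Nat.Prime (n + 1) : ℝ) ≤ 2 ^ 2 * (Nat.nth Nat.Prime n : ℝ) := by
    have : Nat.nth Nat.Prime (n + 1) ≤ 2 ^ 2 * Nat.nth Nat.Prime n := by omega
    exact_mod_cast this
  unfold sq
  calc √(Nat.nth Nat.Prime (n + 1) : ℝ) ≤ √(2 ^ 2 * (Nat.nth Nat.Prime n : ℝ)) :=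
        Real.sqrt_le_sqrt h5
    _ = 2 * √(Nat.nth Nat.Prime n : ℝ) := by
        rw [Real.sqrt_mul (by norm_num), Real.sqrt_sq (by norm_num)]

theorem trans_eq : {t : ℝ | PrimeMap 1 t} = Trans sq := by
  ext t; exact primeMap_iff 1 t

/-- **Theorem.** Let `Γ` be the set of pairs `(l, t)`, `l > 0`, such that every large prime `p`
has a prime `q` with `√q = l √p + t + o(1)`. (1) `Γ` is a semigroup of affine maps. (2)
`limsup (√p_{n+1} - √p_n)` is at most every positive element of the additive group generated by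
the translations in `Γ`. (3) Equivalent are: `√p_{n+1} - √p_n → 0`; `Γ` contains all affine
maps with `l > 0`; `Γ` contains two translations with irrational ratio; `Γ` contains `(l, a)`
and `(1/l, b)` for some `l ≠ 1` and some nonzero translation; `Γ` contains `(l, a)` and
`(1/l, b)` for some `l ≠ 1` with `a + l b ≠ 0`; `Γ` contains an irrational translation and for
some `θ` every large integer `N` has a prime `q` with `√q = N + θ + o(1)`; for some `t` the set of
`l` with `(l, t)` in `Γ` is not meagre; the set of `l` with `(l, 0)` in `Γ` is not Lebesgue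
null. -/
theorem result :
    (∀ l t l' t' : ℝ, 0 < l → 0 < l' → PrimeMap l t → PrimeMap l' t' →
      PrimeMap (l' * l) (l' * t + t')) ∧
    (∀ g : ℝ, 0 < g → g ∈ AddSubgroup.closure {t : ℝ | PrimeMap 1 t} →
      ∀ ε : ℝ, 0 < ε → ∀ᶠ n in atTop, d n ≤ g + ε) ∧
    List.TFAE [
      Tendsto d atTop (𝓝 0),
      ∀ l t : ℝ, 0 < l → PrimeMap l t,
      ∃ s t : ℝ, PrimeMap 1 s ∧ PrimeMap 1 t ∧ Irrational (s / t),
      ∃ l a b t : ℝ, 0 < l ∧ l ≠ 1 ∧ t ≠ 0 ∧
        PrimeMap l a ∧ PrimeMap l⁻¹ b ∧ PrimeMap 1 t,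
      ∃ l a b : ℝ, 0 < l ∧ l ≠ 1 ∧ a + l * b ≠ 0 ∧ PrimeMap l a ∧ PrimeMap l⁻¹ b,
      ∃ θ t : ℝ, NearIntegers θ ∧ PrimeMap 1 t ∧ Irrational t,
      ∃ t : ℝ, ¬ IsMeagre {l : ℝ | 0 < l ∧ PrimeMap l t},
      volume {l : ℝ | 0 < l ∧ PrimeMap l 0} ≠ 0] := by
  refine ⟨?_, ?_, ?_⟩
  · intro l t l' t' hl hl' h h'
    rw [primeMap_iff] at *
    exact Aff.comp sq_strictMono sq_tendsto hl hl' h h'
  · intro g hg hmem ε hε
    rw [trans_eq] at hmem
    exact gapLe_of_mem sq_strictMono sq_tendsto hg hmem ε hε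
  · tfae_have 1 → 2 := by
      intro h l t hl
      rw [primeMap_iff]
      exact aff_of_tendsto sq_strictMono sq_tendsto h hl t
    tfae_have 2 → 3 := by
      intro h
      refine ⟨√2, 1, h _ _ one_pos, h _ _ one_pos, ?_⟩
      rw [div_one]; exact irrational_sqrt_two
    tfae_have 3 → 1 := by
      rintro ⟨s, t, hs, ht, hir⟩
      rw [primeMap_iff] at hs ht
      exact tendsto_of_small sq_strictMono sq_tendsto fun ε hε =>
        small_of_irrational hs ht hir ε hε
    tfae_have 2 → 4 := by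
      intro h
      exact ⟨2, 0, 0, 1, by norm_num, by norm_num, one_ne_zero, h _ _ (by norm_num),
        h _ _ (by norm_num), h _ _ (by norm_num)⟩
    tfae_have 4 → 1 := by
      rintro ⟨l, a, b, t, hl, hl1, ht0, ha, hb, ht⟩
      rw [primeMap_iff] at ha hb ht
      exact tendsto_of_small sq_strictMono sq_tendsto fun ε hε =>
        small_of_dilation' sq_strictMono sq_tendsto hl hl1 ha hb ht ht0 ε hε
    tfae_have 2 → 5 := by
      intro h
      exact ⟨2, 1, 0, by norm_num, by norm_num, by norm_num, h _ _ (by norm_num),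
        h _ _ (by norm_num)⟩
    tfae_have 5 → 4 := by
      rintro ⟨l, a, b, hl, hl1, hu, ha, hb⟩
      refine ⟨l, a, b, l⁻¹ * a + b, hl, hl1, ?_, ha, hb, ?_⟩
      · intro h
        apply hu
        have : l * (l⁻¹ * a + b) = a + l * b := by field_simp
        rw [← this, h, mul_zero]
      · rw [primeMap_iff] at *
        have := Aff.comp sq_strictMono sq_tendsto hl (inv_pos.mpr hl) ha hb
        rwa [inv_mul_cancel₀ hl.ne'] at this
    tfae_have 1 → 6 := by
      intro h
      refine ⟨0, √2, ?_, ?_, irrational_sqrt_two⟩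
      · intro ε hε
        have h1 := close_of_tendsto sq_strictMono sq_tendsto h ε hε
        have h2 := (tendsto_natCast_atTop_atTop (R := ℝ)).eventually h1
        obtain ⟨N₀, hN₀⟩ := eventually_atTop.mp h2
        refine ⟨N₀, fun N hN => ?_⟩
        obtain ⟨m, hm⟩ := hN₀ N hN
        exact ⟨_, Nat.prime_nth_prime m, by rw [add_zero]; exact hm⟩
      · rw [primeMap_iff]
        exact aff_of_tendsto sq_strictMono sq_tendsto h one_pos _
    tfae_have 6 → 1 := by
      rintro ⟨θ, t, hθ, ht, hir⟩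
      rw [primeMap_iff] at ht
      refine tendsto_of_integers sq_strictMono sq_tendsto (θ := θ) (fun ε hε => ?_) ht hir
      obtain ⟨N₀, hN₀⟩ := hθ ε hε
      filter_upwards [eventually_ge_atTop N₀] with N hN
      obtain ⟨q, hq, hq'⟩ := hN₀ N hN
      obtain ⟨m, rfl⟩ := exists_sq hq
      exact ⟨m, hq'⟩
    tfae_have 2 → 7 := by
      intro h
      refine ⟨0, ?_⟩
      have e : {l : ℝ | 0 < l ∧ PrimeMap l 0} = Set.Ioi 0 := by
        ext l; exact ⟨fun h => h.1, fun hl => ⟨hl, h _ _ hl⟩⟩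
      rw [e]
      exact not_isMeagre_of_isOpen isOpen_Ioi Set.nonempty_Ioi
    tfae_have 7 → 1 := by
      rintro ⟨t, h⟩
      simp only [primeMap_iff] at h
      exact tendsto_of_not_meagre sq_strictMono sq_tendsto
        (Eventually.of_forall sq_succ_le) h
    tfae_have 2 → 8 := by
      intro h
      have e : {l : ℝ | 0 < l ∧ PrimeMap l 0} = Set.Ioi 0 := by
        ext l; exact ⟨fun h => h.1, fun hl => ⟨hl, h _ _ hl⟩⟩
      rw [e]
      simp
    tfae_have 8 → 1 := by
      intro h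
      simp only [primeMap_iff] at h
      exact tendsto_of_not_null sq_strictMono sq_tendsto
        (Eventually.of_forall sq_succ_le) h
    tfae_finish

end Pool.Agent.Results.MP_3998cf_nt.AffineMaps
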