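import Pool.Agent.Helper99.Andrica.MillsDense

set_option autoImplicit false

/-!
# Mills numbers of exponent `2` and gaps between square roots of primes
-/

open Filter Topology

namespace Pool.Agent.Results.MP_3998cf_nt.MillsNumbers

/-- `α` is a Mills number of exponent `2`: `α > 1` and `⌊α ^ (2 ^ n)⌋` is prime for all
`n ≥ 1`. -/
def IsMills (α : ℝ) : Prop := 1 < α ∧ ∀ n : ℕ, 1 ≤ n → (⌊α ^ (2 ^ n)⌋₊).Prime

/-- `√p_{n+1} - √p_n` (the primes are indexed from `0`). -/
noncomputable def d (n : ℕ) : ℝ :=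
  √(Nat.nth Nat.Prime (n + 1) : ℝ) - √(Nat.nth Nat.Prime n : ℝ)

/-- The square roots of the primes. -/
noncomputable def sq (n : ℕ) : ℝ := √(Nat.nth Nat.Prime n : ℝ)

theorem sq_strictMono : StrictMono sq := fun a b h => by
  have h1 : Nat.nth Nat.Prime a < Nat.nth Nat.Prime b :=
    Nat.nth_strictMono Nat.infinite_setOfPred_prime h
  exact Real.sqrt_lt_sqrt (by positivity) (by exact_mod_cast h1)

theorem sq_tendsto : Tendsto sq atTop atTop := by
  have h1 : Tendsto (fun n => (Nat.nth Nat.Prime n : ℝ)) atTop atTop :=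
    tendsto_natCast_atTop_atTop.comp (Nat.nth_strictMono Nat.infinite_setOfPred_prime).tendsto_atTop
  exact Real.tendsto_sqrt_atTop.comp h1

theorem exists_sq {q : ℕ} (hq : q.Prime) : ∃ m, Nat.nth Nat.Prime m = q := by
  have := Nat.range_nth_of_infinite Nat.infinite_setOfPred_prime
  have h : q ∈ Set.range (Nat.nth Nat.Prime) := by rw [this]; exact hq
  exact h

open Pool.Agent.Helper99.Andrica

theorem rootDense_of_d {D : ℝ} (h : ∀ ε : ℝ, 0 < ε → ∀ᶠ n in atTop, d n ≤ D + ε) {g : ℝ}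
    (hg : D < g) : RootDense g := by
  obtain ⟨N, hN⟩ := eventually_atTop.mp (h ((g - D) / 2) (by linarith))
  filter_upwards [eventually_gt_atTop (sq N)] with y hy
  have hex : ∃ n, y ≤ sq n := (sq_tendsto.eventually_ge_atTop y).exists
  classical
  set n := Nat.find hex with hn
  have hn1 : y ≤ sq n := Nat.find_spec hex
  have hNn : N < n := sq_strictMono.lt_iff_lt.mp (lt_of_lt_of_le hy hn1)
  obtain ⟨p, hp⟩ : ∃ p, n = p + 1 := ⟨n - 1, by omega⟩
  have hp1 : sq p < y := not_le.mp (Nat.find_min hex (m := p) (by omega))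
  have h1 := hN p (by omega)
  rw [hp] at hn1
  refine ⟨_, Nat.prime_nth_prime (p + 1), hn1, ?_⟩
  have h2 : d p = sq (p + 1) - sq p := rfl
  have h3 : √(Nat.nth Nat.Prime (p + 1) : ℝ) = sq (p + 1) := rfl
  rw [h3]
  linarith

theorem d_of_rootDense {D : ℝ} (h : ∀ g, D < g → RootDense g) :
    ∀ ε : ℝ, 0 < ε → ∀ᶠ n in atTop, d n ≤ D + ε := by
  intro ε hε
  obtain ⟨Y, hY⟩ := eventually_atTop.mp (h (D + ε / 2) (by linarith))
  filter_upwards [sq_tendsto.eventually_ge_atTop Y] with n hn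
  obtain ⟨p, hp, h1, h2⟩ := hY (sq n + ε / 2) (by linarith)
  obtain ⟨m, rfl⟩ := exists_sq hp
  have h3 : √(Nat.nth Nat.Prime m : ℝ) = sq m := rfl
  rw [h3] at h1 h2
  have h4 : sq n < sq m := by linarith
  have h5 : sq (n + 1) ≤ sq m := sq_strictMono.monotone (sq_strictMono.lt_iff_lt.mp h4)
  have h6 : d n = sq (n + 1) - sq n := rfl
  linarith

theorem q1_iff : Tendsto d atTop (𝓝 0) ↔ ∀ ε : ℝ, 0 < ε → ∀ᶠ n in atTop, d n ≤ 0 + ε := by
  have hpos : ∀ n, 0 < d n := fun n => by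
    have := sq_strictMono (Nat.lt_succ_self n)
    have h6 : d n = sq (n + 1) - sq n := rfl
    rw [h6]; linarith
  constructor
  · intro h ε hε
    rw [Metric.tendsto_atTop] at h
    obtain ⟨N, hN⟩ := h ε hε
    filter_upwards [eventually_ge_atTop N] with n hn
    have := hN n hn
    rw [Real.dist_eq, sub_zero, abs_of_pos (hpos n)] at this
    linarith
  · intro h
    rw [Metric.tendsto_atTop]
    intro ε hε
    obtain ⟨N, hN⟩ := eventually_atTop.mp (h (ε / 2) (by positivity))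
    refine ⟨N, fun n hn => ?_⟩
    rw [Real.dist_eq, sub_zero, abs_of_pos (hpos n)]
    linarith [hN n hn]

/-- **Theorem.** (1) For `0 ≤ D < 1`: `limsup (√p_{n+1} - √p_n) ≤ D` iff for every `ε > 0` each
interval `[y, y + D + ε]`, `y` large, contains a number `α` such that `⌊α ^ (2 ^ n)⌋` is prime
for all `n ≥ 1`. (2) For `0 ≤ D < 1/2` this holds iff each such interval contains continuum many
such `α`. (3) In particular `√p_{n+1} - √p_n → 0` iff for every `ε > 0` each interval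
`[y, y + ε]`, `y` large, contains one such `α`, iff it contains continuum many. -/
theorem result :
    (∀ D : ℝ, 0 ≤ D → D < 1 →
      ((∀ ε : ℝ, 0 < ε → ∀ᶠ n in atTop, d n ≤ D + ε) ↔
        ∀ ε : ℝ, 0 < ε → ∀ᶠ y : ℝ in atTop, ∃ α : ℝ, IsMills α ∧ y ≤ α ∧ α ≤ y + (D + ε))) ∧
    (∀ D : ℝ, 0 ≤ D → D < 1 / 2 →
      ((∀ ε : ℝ, 0 < ε → ∀ᶠ n in atTop, d n ≤ D + ε) ↔
        ∀ ε : ℝ, 0 < ε → ∀ᶠ y : ℝ in atTop,
          Cardinal.mk {α : ℝ // IsMills α ∧ y ≤ α ∧ α ≤ y + (D + ε)} = Cardinal.continuum)) ∧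
    (Tendsto d atTop (𝓝 0) ↔
      ∀ ε : ℝ, 0 < ε → ∀ᶠ y : ℝ in atTop, ∃ α : ℝ, IsMills α ∧ y ≤ α ∧ α ≤ y + ε) ∧
    (Tendsto d atTop (𝓝 0) ↔
      ∀ ε : ℝ, 0 < ε → ∀ᶠ y : ℝ in atTop,
        Cardinal.mk {α : ℝ // IsMills α ∧ y ≤ α ∧ α ≤ y + ε} = Cardinal.continuum) := by
  have A : ∀ D : ℝ, 0 ≤ D → D < 1 →
      ((∀ ε : ℝ, 0 < ε → ∀ᶠ n in atTop, d n ≤ D + ε) ↔
        ∀ ε : ℝ, 0 < ε → ∀ᶠ y : ℝ in atTop, ∃ α : ℝ, IsMills α ∧ y ≤ α ∧ α ≤ y + (D + ε)) := by
    intro D hD0 hD1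
    constructor
    · intro h ε hε
      set δ := min ε (1 - D) / 2 with hδ
      have hδ0 : 0 < δ := by
        have : 0 < min ε (1 - D) := lt_min hε (by linarith)
        rw [hδ]; positivity
      have hδ1 : δ < 1 - D := by
        have := min_le_right ε (1 - D)
        have h0 : 0 < 1 - D := by linarith
        rw [hδ]; linarith
      have hδ2 : δ ≤ ε / 2 := by
        have := min_le_left ε (1 - D)
        rw [hδ]; linarith
      have h1 := millsDense_of_rootDense (g := D + δ) (η := ε / 2) (by linarith) (by positivity)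
        (rootDense_of_d h (by linarith))
      filter_upwards [h1] with y hy
      obtain ⟨α, ha, ha1, ha2⟩ := hy
      exact ⟨α, ha, ha1, by linarith⟩
    · intro h
      apply d_of_rootDense
      intro g hg
      have h1 : MillsDense (D + (g - D) / 2) := h ((g - D) / 2) (by linarith)
      have h2 := rootDense_of_millsDense (η := (g - D) / 2) (by linarith) h1
      have e : D + (g - D) / 2 + (g - D) / 2 = g := by ring
      rwa [e] at h2
  have B : ∀ D : ℝ, 0 ≤ D → D < 1 / 2 →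
      ((∀ ε : ℝ, 0 < ε → ∀ᶠ n in atTop, d n ≤ D + ε) ↔
        ∀ ε : ℝ, 0 < ε → ∀ᶠ y : ℝ in atTop,
          Cardinal.mk {α : ℝ // IsMills α ∧ y ≤ α ∧ α ≤ y + (D + ε)} = Cardinal.continuum) := by
    intro D hD0 hD1
    constructor
    · intro h ε hε
      set δ := min ε (1 / 2 - D) / 2 with hδ
      have hδ0 : 0 < δ := by
        have : 0 < min ε (1 / 2 - D) := lt_min hε (by linarith)
        rw [hδ]; positivity
      have hδ1 : δ < 1 / 2 - D := by
        have := min_le_right ε (1 / 2 - D)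
        have h0 : 0 < 1 / 2 - D := by linarith
        rw [hδ]; linarith
      have hδ2 : δ < ε := by
        have := min_le_left ε (1 / 2 - D)
        rw [hδ]; linarith
      have h1 := millsMany_of_rootDense (g := D + δ) (η := ε - δ) (by linarith) (by linarith)
        (rootDense_of_d h (by linarith))
      have e : D + δ + (ε - δ) = D + ε := by ring
      rw [e] at h1
      exact h1
    · intro h
      refine (A D hD0 (by linarith)).mpr fun ε hε => ?_
      exact millsDense_of_many (h ε hε)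
  refine ⟨A, B, ?_, ?_⟩
  · rw [q1_iff, A 0 le_rfl one_pos]
    simp only [zero_add]
  · rw [q1_iff, B 0 le_rfl (by norm_num)]
    simp only [zero_add]

end Pool.Agent.Results.MP_3998cf_nt.MillsNumbers
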